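import Pool.Agent.N343.QuiddityFinite

set_option autoImplicit false

/-!
# MP_762e7e_co: for every `N ≥ 2` the equation `(E_N)` has only finitely many irreducible solutions

The definitions (`T`, `M`, `IsSolution`, `osum`, `Equivalent`, `Reducible`, `IsIrreducible`) are in
`Pool.Agent.R104.Quiddity`.
-/

namespace Pool.Agent.Results.MP_762e7e_co.FinitelyManyIrreducible

open Pool.Agent.R104.Quiddity

/-- For every `N ≥ 2` the set of the irreducible solutions of `(E_N)` is finite, and the size of an
irreducible solution is at most `max 4 ((N ^ 2 - 1) / 2)`. -/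
theorem result (N : ℕ) (hN : 2 ≤ N) :
    {c : List (ZMod N) | IsIrreducible c}.Finite ∧
      ∀ c : List (ZMod N), IsIrreducible c → c.length ≤ max 4 ((N ^ 2 - 1) / 2) :=
  ⟨Pool.Agent.N343.QuiddityFinite.finite hN,
    fun _ hc => Pool.Agent.N343.QuiddityFinite.length_le hN hc⟩

end Pool.Agent.Results.MP_762e7e_co.FinitelyManyIrreducible
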